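import Pool.Agent.Work.MP_64e6b8_an.Main

/-!
# The numerical index of real C*-algebras and of their isometric preduals

The definitions are in `Pool/Agent/Work/MP_64e6b8_an/Defs.lean`, the proof is in the other files of
that folder.
-/

set_option autoImplicit false

open Pool.Agent.Work.MP_64e6b8_an

namespace Pool.Agent.Results.MP_64e6b8_an.RealCStarIndex

/-- **Numerical index of real C⋆-algebras and preduals of real W⋆-algebras.**
Let `A` be a non-zero real C⋆-algebra: a norm-closed real ⋆-subalgebra of a complex C⋆-algebra `B`.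
If every element of `A` is self-adjoint then `n(A) = 1` and `n(X) = 1` for every isometric predual
`X` of `A`. Otherwise `n(A) = 0` and `n(X) = 0` for every isometric predual `X` of `A`. -/
theorem result {B : Type*} [NonUnitalCStarAlgebra B] (A : NonUnitalStarSubalgebra ℝ B)
    (hA : IsClosed (A : Set B)) [Nontrivial A] :
    ((∀ a : A, star a = a) → numericalIndex A = 1 ∧
      ∀ (X : Type*) [NormedAddCommGroup X] [NormedSpace ℝ X] [CompleteSpace X],
        ((X →L[ℝ] ℝ) ≃ₗᵢ[ℝ] A) → numericalIndex X = 1) ∧
    ((¬ ∀ a : A, star a = a) → numericalIndex A = 0 ∧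
      ∀ (X : Type*) [NormedAddCommGroup X] [NormedSpace ℝ X] [CompleteSpace X],
        ((X →L[ℝ] ℝ) ≃ₗᵢ[ℝ] A) → numericalIndex X = 0) :=
  ⟨fun h => ⟨index_algebra_one hA h, fun _ _ _ _ Φ => index_predual_one hA h Φ⟩,
    fun h => ⟨index_algebra_zero h, fun _ _ _ _ Φ => index_predual_zero hA h Φ⟩⟩

end Pool.Agent.Results.MP_64e6b8_an.RealCStarIndex
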